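import Mathlib
import Pool.Agent.H572Z.Mx.Main

set_option autoImplicit false

open MeasureTheory Set Pool.Agent.H572Z.Mx
open scoped ENNReal

/-- **Q1 fails.** On the real line, for every `p ≥ 2` and every constant `C` there is a weight
`w ∈ A_p` (measurable, positive, finite, locally integrable) such that, with `p' = p / (p - 1)`
and `σ = w ^ (1 - p')`, the norm of the maximal operator on `L^p(w)` exceeds
`C * sup_Q A_{p'}(σ, Q)^(1/p') A_∞(σ, Q)^(1/p)`. -/
theorem Pool.Agent.Results.MP_2c43e6_an.ALogNeeded.result :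
    ∀ p : ℝ, 2 ≤ p → ∀ C : NNReal, ∃ w : ℝ → ℝ≥0∞,
      Measurable w ∧ (∀ x, 0 < w x ∧ w x < ⊤) ∧ (∀ a b : ℝ, ∫⁻ x in Icc a b, w x < ⊤) ∧
      AqConst p w < ⊤ ∧
      (C : ℝ≥0∞) * mixedConst (p / (p - 1)) (1 / (p / (p - 1))) (1 / p)
          (fun x => w x ^ (1 - p / (p - 1))) < maxOpNorm p w :=
  fun _ hp C => Pool.Agent.H572Z.Mx.main hp C
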